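import Pool.Agent.Lib.MP_d437ed_an.AllDif

/-!
Problem MP_d437ed_an, Q1 (negated form): the diffraction measure of the vertex set of a pinwheel
tiling has a nonzero singular continuous part.
-/

set_option autoImplicit false

namespace Pool.Agent.Results.MP_d437ed_an.SingularContinuous

open Pool.Agent.Lib.MPd437ed MeasureTheory

/-- For every pinwheel tiling, every autocorrelation `γ` of its vertex set and every Fourier
transform `μ` of `γ`, the singular continuous part of `μ` is not zero. -/
theorem result (𝒯 : Set Tile) (h𝒯 : IsPinwheelTiling 𝒯) (γ μ : Measure ℂ)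
    (hγ : IsAutocorrelation (vertexSet 𝒯) γ) (hμ : IsFourierTransform γ μ) :
    scPart μ ≠ 0 :=
  All.final 𝒯 h𝒯 γ μ hγ hμ

end Pool.Agent.Results.MP_d437ed_an.SingularContinuous
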